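import Pool.Agent.W408.RD.Lev

set_option autoImplicit false
set_option linter.unusedVariables false

/-!
# The union of the levels
-/

namespace Pool.Agent.W408.RD

noncomputable section

/-- the big space -/
abbrev BV := (ℕ → Fin 3) → LL

/-- the restriction -/
def res (n : ℕ) (s : ℕ → Fin 3) : Fin n → Fin 3 := fun j => s j

/-- replacing the first values -/
def put (n : ℕ) (i : Fin n → Fin 3) (s : ℕ → Fin 3) : ℕ → Fin 3 := fun j =>
  if h : j < n then i ⟨j, h⟩ else s j

theorem res_put (n : ℕ) (i : Fin n → Fin 3) (s : ℕ → Fin 3) : res n (put n i s) = i := by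
  funext j
  simp [res, put]

theorem put_res (n : ℕ) (s : ℕ → Fin 3) : put n (res n s) s = s := by
  funext j
  simp [res, put]

theorem put_put (n : ℕ) (i i' : Fin n → Fin 3) (s : ℕ → Fin 3) :
    put n i (put n i' s) = put n i s := by
  funext j
  by_cases h : j < n <;> simp [put, h]

theorem put_snoc (n : ℕ) (i : Fin n → Fin 3) (s : ℕ → Fin 3) :
    put (n + 1) (Fin.snoc i (s n)) s = put n i s := by
  funext j
  by_cases h : j < n
  · have h' : j < n + 1 := by omega
    have : (⟨j, h'⟩ : Fin (n + 1)) = Fin.castSucc ⟨j, h⟩ := rfl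
    simp only [put, dif_pos h, dif_pos h', this, Fin.snoc_castSucc]
  · by_cases h2 : j = n
    · subst h2
      have h' : j < j + 1 := by omega
      have : (⟨j, h'⟩ : Fin (j + 1)) = Fin.last j := rfl
      simp only [put, dif_neg h, dif_pos h', this, Fin.snoc_last]
    · have h' : ¬ j < n + 1 := by omega
      simp only [put, dif_neg h, dif_neg h']

theorem init_res (n : ℕ) (s : ℕ → Fin 3) : Fin.init (res (n + 1) s) = res n s := by
  funext j
  simp [res, Fin.init]

/-- the inclusion of the level in the big ring -/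
def iota (n : ℕ) : Module.End ℂ (VV n) →+* Module.End ℂ BV where
  toFun x :=
    { toFun := fun v s => x (fun i => v (put n i s)) (res n s)
      map_add' := fun v w => by
        funext s
        have : (fun i => (v + w) (put n i s)) = (fun i => v (put n i s)) + fun i => w (put n i s) := rfl
        rw [this, map_add]; rfl
      map_smul' := fun c v => by
        funext s
        have : (fun i => (c • v) (put n i s)) = c • fun i => v (put n i s) := rfl
        rw [this, map_smul]; rfl }
  map_one' := by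
    refine LinearMap.ext fun v => funext fun s => ?_
    change v (put n (res n s) s) = v s
    rw [put_res]
  map_zero' := LinearMap.ext fun v => funext fun s => rfl
  map_add' x y := LinearMap.ext fun v => funext fun s => rfl
  map_mul' x y := by
    refine LinearMap.ext fun v => funext fun s => ?_
    change x (y (fun i => v (put n i s))) (res n s) =
      x (fun i => y (fun i' => v (put n i' (put n i s))) (res n (put n i s))) (res n s)
    simp only [res_put, put_put]

theorem iota_apply (n : ℕ) (x : Module.End ℂ (VV n)) (v : BV) (s : ℕ → Fin 3) :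
    iota n x v s = x (fun i => v (put n i s)) (res n s) := rfl

theorem iota_inj (n : ℕ) : Function.Injective (iota n) := by
  rw [injective_iff_map_eq_zero]
  intro x hx
  refine LinearMap.ext fun v => funext fun i => ?_
  have h := congrFun (congrArg (fun f : Module.End ℂ BV => f (fun s => v (res n s))) hx)
    (put n i (fun _ => 0))
  change x (fun i' => v (res n (put n i' (put n i fun _ => 0)))) (res n (put n i fun _ => 0)) = 0 at h
  simp only [res_put] at h
  exact h

theorem iota_raise (n : ℕ) (x : Module.End ℂ (VV n)) : iota (n + 1) (raise n x) = iota n x := by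
  refine LinearMap.ext fun v => funext fun s => ?_
  change x (sl (res (n + 1) s (Fin.last n)) (fun i => v (put (n + 1) i s)))
    (Fin.init (res (n + 1) s)) = x (fun i => v (put n i s)) (res n s)
  have h : sl (res (n + 1) s (Fin.last n)) (fun i => v (put (n + 1) i s)) =
      fun i => v (put n i s) := by
    funext j
    change v (put (n + 1) (Fin.snoc j (s n)) s) = v (put n j s)
    rw [put_snoc]
  rw [init_res, h]

/-- level elements -/
abbrev SRn (n : ℕ) (x : Module.End ℂ (VV n)) : Prop := SR (lam n) (PP n) x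

theorem exists_raise {n m : ℕ} (h : n ≤ m) {x : Module.End ℂ (VV n)} (hx : SRn n x) :
    ∃ y : Module.End ℂ (VV m), SRn m y ∧ iota m y = iota n x := by
  induction m, h using Nat.le_induction with
  | base => exact ⟨x, hx, rfl⟩
  | succ m _ ih =>
    obtain ⟨y, hy, he⟩ := ih
    exact ⟨raise m y, raise_SR hy, by rw [iota_raise, he]⟩

theorem exists_raise_NZ {n m : ℕ} (h : n + 1 ≤ m) {x : Module.End ℂ (VV n)} (hx : SRn n x)
    (h0 : x ≠ 0) : ∃ y : Module.End ℂ (VV m), SRn m y ∧ iota m y = iota n x ∧ NZ y := by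
  induction m, h using Nat.le_induction with
  | base => exact ⟨raise n x, raise_SR hx, iota_raise _ _, raise_NZ h0⟩
  | succ m _ ih =>
    obtain ⟨y, hy, he, hn⟩ := ih
    exact ⟨raise m y, raise_SR hy, by rw [iota_raise, he], raise_NZ hn.ne⟩

/-- the carrier -/
def InR (X : Module.End ℂ BV) : Prop := ∃ (n : ℕ) (x : Module.End ℂ (VV n)), SRn n x ∧ iota n x = X

theorem InR.common {X Y : Module.End ℂ BV} (h : InR X) (h' : InR Y) (N : ℕ) :
    ∃ (n : ℕ) (x y : Module.End ℂ (VV n)), N ≤ n ∧ SRn n x ∧ SRn n y ∧ iota n x = X ∧ iota n y = Y := by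
  obtain ⟨n, x, hx, rfl⟩ := h
  obtain ⟨m, y, hy, rfl⟩ := h'
  obtain ⟨x', hx', ex⟩ := exists_raise (show n ≤ max N (max n m) by omega) hx
  obtain ⟨y', hy', ey⟩ := exists_raise (show m ≤ max N (max n m) by omega) hy
  exact ⟨_, x', y', le_max_left _ _, hx', hy', ex, ey⟩

/-- the ring -/
def RX : Subring (Module.End ℂ BV) where
  carrier := {X | InR X}
  mul_mem' := by
    rintro X Y hX hY
    obtain ⟨n, x, y, -, hx, hy, rfl, rfl⟩ := hX.common hY 0
    exact ⟨n, x * y, hx.mul hy, map_mul _ _ _⟩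
  one_mem' := ⟨0, 1, SR.one, map_one _⟩
  add_mem' := by
    rintro X Y hX hY
    obtain ⟨n, x, y, -, hx, hy, rfl, rfl⟩ := hX.common hY 0
    exact ⟨n, x + y, hx.add hy, map_add _ _ _⟩
  zero_mem' := ⟨0, 0, SR.zero, map_zero _⟩
  neg_mem' := by
    rintro X ⟨n, x, hx, rfl⟩
    exact ⟨n, -x, hx.neg, map_neg (iota n) x⟩

/-- elements of the ring -/
def mkx (n : ℕ) (x : Module.End ℂ (VV n)) (hx : SRn n x) : RX := ⟨iota n x, n, x, hx, rfl⟩

theorem common (X Y : RX) (N : ℕ) : ∃ (n : ℕ) (x y : Module.End ℂ (VV n)) (hx : SRn n x)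
    (hy : SRn n y), N ≤ n ∧ X = mkx n x hx ∧ Y = mkx n y hy := by
  obtain ⟨n, x, y, hn, hx, hy, ex, ey⟩ := X.2.common Y.2 N
  exact ⟨n, x, y, hx, hy, hn, Subtype.ext ex.symm, Subtype.ext ey.symm⟩

theorem mkx_mul {n : ℕ} {x y : Module.End ℂ (VV n)} (hx : SRn n x) (hy : SRn n y) :
    mkx n x hx * mkx n y hy = mkx n (x * y) (hx.mul hy) := Subtype.ext (map_mul _ _ _).symm

theorem mkx_add {n : ℕ} {x y : Module.End ℂ (VV n)} (hx : SRn n x) (hy : SRn n y) :
    mkx n x hx + mkx n y hy = mkx n (x + y) (hx.add hy) := Subtype.ext (map_add _ _ _).symm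

theorem mkx_neg {n : ℕ} {x : Module.End ℂ (VV n)} (hx : SRn n x) :
    - mkx n x hx = mkx n (-x) hx.neg := Subtype.ext (map_neg (iota n) x).symm

theorem mkx_one (n : ℕ) : mkx n 1 SR.one = 1 := Subtype.ext (map_one _)

theorem mkx_zero (n : ℕ) : mkx n 0 SR.zero = 0 := Subtype.ext (map_zero _)

theorem mkx_inj {n : ℕ} {x y : Module.End ℂ (VV n)} {hx : SRn n x} {hy : SRn n y}
    (h : mkx n x hx = mkx n y hy) : x = y := iota_inj n (congrArg Subtype.val h)

theorem RX_regular (a : RX) : ∃ x : RX, a * x * a = a := by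
  obtain ⟨n, x, -, hx, -, -, rfl, -⟩ := common a a 0
  obtain ⟨y, hy, h⟩ := hx.regular (PP_idem n)
  exact ⟨mkx n y hy, by rw [mkx_mul, mkx_mul]; exact Subtype.ext (congrArg (iota n) h)⟩

/-- an injective endomorphism which is not surjective -/
def SS : Module.End ℂ LL where
  toFun f := HahnSeries.single 1 1 * p₀ f + (f - p₀ f)
  map_add' f g := by
    rw [map_add, mul_add]
    abel
  map_smul' c f := by
    rw [map_smul, mul_smul', RingHom.id_apply, smul_add, smul_sub]

theorem SS_coeff (f : LL) (i : ℤ) : (SS f).coeff i =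
    (if i - 1 < 0 then 0 else f.coeff (i - 1)) + (f.coeff i - if i < 0 then 0 else f.coeff i) := by
  change (HahnSeries.single 1 1 * p₀ f + (f - p₀ f)).coeff i = _
  rw [HahnSeries.coeff_add, HahnSeries.coeff_single_mul, HahnSeries.coeff_sub, p₀_coeff, p₀_coeff,
    one_mul]

theorem LL_inf : ¬ FiniteDimensional ℂ LL := by
  intro h
  have hinj : Function.Injective SS := by
    rw [injective_iff_map_eq_zero]
    intro f hf
    ext i
    rw [HahnSeries.coeff_zero]
    by_cases hi : i < 0
    · have := congrArg (fun g : LL => g.coeff i) hf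
      simp only [SS_coeff, HahnSeries.coeff_zero] at this
      rw [if_pos (by omega), if_pos hi, zero_add, sub_zero] at this
      exact this
    · have := congrArg (fun g : LL => g.coeff (i + 1)) hf
      simp only [SS_coeff, HahnSeries.coeff_zero] at this
      rw [if_neg (by omega), if_neg (by omega), sub_self, add_zero, add_sub_cancel_right] at this
      exact this
  obtain ⟨f, hf⟩ := LinearMap.surjective_of_injective hinj (HahnSeries.single 0 1)
  have := congrArg (fun g : LL => g.coeff 0) hf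
  simp only [SS_coeff, HahnSeries.coeff_single_same] at this
  rw [if_pos (by omega), if_neg (by omega), sub_self, add_zero] at this
  exact zero_ne_one this

theorem VV_inf (n : ℕ) : ¬ FiniteDimensional ℂ (VV n) := by
  intro h
  apply LL_inf
  let g : LL →ₗ[ℂ] VV n :=
    { toFun := fun f _ => f
      map_add' := fun _ _ => rfl
      map_smul' := fun _ _ => rfl }
  exact FiniteDimensional.of_injective g fun a b hab => congrFun hab (fun _ => 0)

theorem RX_finite (x y : RX) (h : x * y = 1) : y * x = 1 := by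
  obtain ⟨n, a, b, ha, hb, -, rfl, rfl⟩ := common x y 0
  rw [mkx_mul, ← mkx_one n] at h
  have h1 := mkx_inj h
  rw [mkx_mul, ← mkx_one n]
  exact Subtype.ext (congrArg (iota n) (ha.finite (VV_inf n) h1))

/-- the element which is not unit-regular -/
def TX : RX := mkx 0 (TT 0) TT_SR

theorem TX_eq (n : ℕ) : ∃ h, TX = mkx n (TT n) h := by
  induction n with
  | zero => exact ⟨TT_SR, rfl⟩
  | succ n ih =>
    obtain ⟨h, e⟩ := ih
    have h' := raise_SR h
    rw [raise_TT] at h'
    refine ⟨h', ?_⟩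
    rw [e]
    apply Subtype.ext
    change iota n (TT n) = iota (n + 1) (TT (n + 1))
    rw [← raise_TT, iota_raise]

theorem TX_not (u : RXˣ) : TX * (u : RX) * TX ≠ TX := by
  intro h
  obtain ⟨n, a, b, ha, hb, -, ea, eb⟩ := common (u : RX) ((u⁻¹ : RXˣ) : RX) 0
  obtain ⟨hT, eT⟩ := TX_eq n
  rw [ea, eT, mkx_mul, mkx_mul] at h
  have h1 := mkx_inj h
  have h2 : b * a = 1 := by
    have := u.inv_mul
    rw [ea, eb, mkx_mul, ← mkx_one n] at this
    exact mkx_inj this
  exact no_unit n a b ha.1 h2 h1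

/-- a homomorphism which is not injective kills the elements of finite rank of all high levels -/
theorem kills {S : Type} [Ring S] (f : RX →+* S) {Z : RX} (hZ : Z ≠ 0) (hf : f Z = 0) :
    ∃ N, ∀ n, N ≤ n → ∀ (g : Module.End ℂ (VV n)) (hg : SRn n g), FR g → f (mkx n g hg) = 0 := by
  obtain ⟨m, z, -, hz, -, -, rfl, -⟩ := common Z Z 0
  have hz0 : z ≠ 0 := by
    rintro rfl
    exact hZ (mkx_zero m)
  refine ⟨m + 1, fun n hn g hg hgF => ?_⟩
  obtain ⟨y, hy, he, hyN⟩ := exists_raise_NZ hn hz hz0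
  have hfy : f (mkx n y hy) = 0 := by
    have : mkx n y hy = mkx m z hz := Subtype.ext he
    rw [this, hf]
  let K : Module.End ℂ (VV n) → Prop := fun x => ∃ h : SRn n x, f (mkx n x h) = 0
  have K0 : K 0 := ⟨SR.zero, by rw [mkx_zero, map_zero]⟩
  have Kadd : ∀ x y, K x → K y → K (x + y) := by
    rintro x y ⟨h1, h2⟩ ⟨h3, h4⟩
    exact ⟨h1.add h3, by rw [← mkx_add h1 h3, map_add, h2, h4, add_zero]⟩
  have Kmul : ∀ a z b, SRn n a → SRn n b → K z → K (a * z * b) := by
    rintro a z b ha hb ⟨h1, h2⟩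
    refine ⟨(ha.mul h1).mul hb, ?_⟩
    rw [← mkx_mul (ha.mul h1) hb, ← mkx_mul ha h1, map_mul, map_mul, h2, mul_zero, zero_mul]
  have hP := PP_idem n
  have hP' : (1 - PP n) * (1 - PP n) = 1 - PP n := alg3 (A := Module.End ℂ (VV n)) hP
  obtain ⟨⟨v₀, hv₀, hn₀⟩, ⟨v₁, hv₁, hn₁⟩⟩ := hyN
  have hgP : g * PP n = PP n * g := hg.1
  have hgP' : g * (1 - PP n) = (1 - PP n) * g := alg4 (A := Module.End ℂ (VV n)) hgP
  have a6 := alg6 (A := Module.End ℂ (VV n)) hP hgP
  have a6' := alg6 (A := Module.End ℂ (VV n)) hP' hgP'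
  have k1 : K (g * PP n) :=
    kill hP K0 Kadd Kmul ⟨hy, hfy⟩ hy.1 hv₀ hn₀ (hgF.mul_right _) a6.1 a6.2
  have k2 : K (g * (1 - PP n)) :=
    kill (lam := lam n) hP' K0 Kadd (fun a z b ha hb => Kmul a z b (SR.compl.1 ha) (SR.compl.1 hb))
      ⟨hy, hfy⟩ (alg4 (A := Module.End ℂ (VV n)) hy.1) hv₁ hn₁ (hgF.mul_right _) a6'.1 a6'.2
  obtain ⟨h3, h4⟩ := Kadd _ _ k1 k2
  have e : g * PP n + g * (1 - PP n) = g := alg5 (A := Module.End ℂ (VV n)) _ _
  have : mkx n g hg = mkx n _ h3 := Subtype.ext (congrArg (iota n) e.symm)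
  rw [this, h4]

theorem RX_images (S : Type) [Ring S] (f : RX →+* S) (hf : Function.Surjective f) (x y : S)
    (h : x * y = 1) : y * x = 1 := by
  obtain ⟨X, rfl⟩ := hf x
  obtain ⟨Y, rfl⟩ := hf y
  by_cases hinj : Function.Injective f
  · rw [← map_mul, ← map_one f] at h ⊢
    rw [RX_finite _ _ (hinj h)]
  · rw [injective_iff_map_eq_zero] at hinj
    push Not at hinj
    obtain ⟨Z, hZ, hZ0⟩ := hinj
    obtain ⟨N, hN⟩ := kills f hZ0 hZ
    obtain ⟨n, a, b, ha, hb, hn, rfl, rfl⟩ := common X Y N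
    obtain ⟨-, α, hα⟩ := id ha
    obtain ⟨-, β, hβ⟩ := id hb
    have e3 := FR_commutator hα hβ
    have hs : SRn n (b * a + -(a * b)) := (hb.mul ha).add (ha.mul hb).neg
    have e4 := hN n hn _ hs e3
    rw [← mkx_add (hb.mul ha) (ha.mul hb).neg, ← mkx_neg (ha.mul hb), ← mkx_mul hb ha,
      ← mkx_mul ha hb, map_add, map_neg, map_mul, map_mul, h, add_neg_eq_zero] at e4
    exact e4

end

end Pool.Agent.W408.RD
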