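import Mathlib

set_option autoImplicit false

/-!
# Rings of even operators which are scalar modulo finite rank
-/

namespace Pool.Agent.W408.RD

noncomputable section

variable {k : Type} [Field k]

theorem alg1 {A : Type} [Ring A] {T u : A} (h : T * u * T = T) : T * (u * (1 - T * u)) = 0 := by
  calc T * (u * (1 - T * u)) = T * u - (T * u * T) * u := by noncomm_ring
    _ = 0 := by rw [h, sub_self]

theorem alg2 {A : Type} [Ring A] {T u P : A} (hT : T * P = P * T) (hu : u * P = P * u) :
    u * (1 - T * u) * P = P * (u * (1 - T * u)) := by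
  calc u * (1 - T * u) * P = u * P - u * T * (u * P) := by noncomm_ring
    _ = u * P - u * (T * P) * u := by rw [hu]; simp only [mul_assoc]
    _ = u * P - (u * P) * T * u := by rw [hT]; simp only [mul_assoc]
    _ = P * (u * (1 - T * u)) := by rw [hu]; noncomm_ring

theorem alg3 {A : Type} [Ring A] {P : A} (hP : P * P = P) : (1 - P) * (1 - P) = 1 - P := by
  rw [mul_sub, mul_one, sub_mul, one_mul, hP, sub_self, sub_zero]

theorem alg4 {A : Type} [Ring A] {P x : A} (hx : x * P = P * x) : x * (1 - P) = (1 - P) * x := by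
  rw [mul_sub, sub_mul, mul_one, one_mul, hx]

theorem alg5 {A : Type} [Ring A] (P g : A) : g * P + g * (1 - P) = g := by
  rw [← mul_add]; simp

theorem alg6 {A : Type} [Ring A] {P g : A} (hP : P * P = P) (hg : g * P = P * g) :
    g * P * P = P * (g * P) ∧ g * P * P = g * P := by
  constructor
  · rw [mul_assoc, hP, ← mul_assoc, ← hg, mul_assoc, hP]
  · rw [mul_assoc, hP]

section FR
variable {V : Type} [AddCommGroup V] [Module k V]

/-- finite rank -/
def FR (x : Module.End k V) : Prop := FiniteDimensional k (LinearMap.range x)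

theorem FR.of_le {x : Module.End k V} {K : Submodule k V} [FiniteDimensional k K]
    (h : ∀ v, x v ∈ K) : FR x := by
  have : LinearMap.range x ≤ K := by
    rintro _ ⟨v, rfl⟩
    exact h v
  exact Submodule.finiteDimensional_of_le this

theorem FR.zero : FR (0 : Module.End k V) := FR.of_le (K := ⊥) (fun v => by simp)

theorem FR.add {x y : Module.End k V} (h : FR x) (h' : FR y) : FR (x + y) := by
  unfold FR at h h'
  exact FR.of_le (K := LinearMap.range x ⊔ LinearMap.range y)
    (fun v => Submodule.add_mem_sup ⟨v, rfl⟩ ⟨v, rfl⟩)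

theorem FR.mul_right {x : Module.End k V} (h : FR x) (y : Module.End k V) : FR (x * y) := by
  unfold FR at h
  exact FR.of_le (K := LinearMap.range x) (fun v => ⟨y v, rfl⟩)

theorem FR.mul_left {x : Module.End k V} (h : FR x) (y : Module.End k V) : FR (y * x) := by
  unfold FR at h
  exact FR.of_le (K := (LinearMap.range x).map y) (fun v => ⟨x v, ⟨v, rfl⟩, rfl⟩)

theorem FR.neg {x : Module.End k V} (h : FR x) : FR (-x) := by
  have := h.mul_left (-1)
  simpa using this

theorem FR.sub {x y : Module.End k V} (h : FR x) (h' : FR y) : FR (x - y) := by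
  rw [sub_eq_add_neg]
  exact h.add h'.neg

/-- every endomorphism of a vector space is regular -/
theorem end_regular (x : Module.End k V) : ∃ y : Module.End k V, x * y * x = x := by
  obtain ⟨s, hs⟩ := LinearMap.exists_rightInverse_of_surjective
    x.rangeRestrict x.range_rangeRestrict
  obtain ⟨r, hr⟩ := (LinearMap.range x).subtype.exists_leftInverse_of_injective
    (Submodule.ker_subtype _)
  refine ⟨s ∘ₗ r, ?_⟩
  ext v
  have h1 : r (x v) = ⟨x v, v, rfl⟩ := congrArg (fun f => f ⟨x v, v, rfl⟩) hr
  have h2 := congrArg (fun f => ((f ⟨x v, v, rfl⟩ : LinearMap.range x) : V)) hs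
  change x (s (r (x v))) = x v
  rw [h1]
  exact h2

/-- a surjection which is the identity modulo finite rank is injective -/
theorem inj_of_surj {z : Module.End k V} (hz : FR (z - 1)) (hs : Function.Surjective z) :
    Function.Injective z := by
  unfold FR at hz
  let W := LinearMap.range (z - 1)
  have hW : ∀ v, z v - v ∈ W := fun v => ⟨v, rfl⟩
  have hzW : ∀ w ∈ W, z w ∈ W := by
    intro w hw
    have := W.add_mem (hW w) hw
    simpa using this
  let g : W →ₗ[k] W := z.restrict hzW
  have hg : Function.Surjective g := by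
    rintro ⟨w, hw⟩
    obtain ⟨v, rfl⟩ := hs w
    have hv : v ∈ W := by
      have := W.sub_mem hw (hW v)
      simpa using this
    exact ⟨⟨v, hv⟩, rfl⟩
  have hgi : Function.Injective g := (LinearMap.injective_iff_surjective).2 hg
  rw [injective_iff_map_eq_zero]
  intro v hv
  have hv' : v ∈ W := by
    have := W.neg_mem (hW v)
    simpa [hv] using this
  have := hgi (a₁ := ⟨v, hv'⟩) (a₂ := 0) (Subtype.ext (by simpa [g] using hv))
  simpa using this

end FR

section Ring

variable {L V : Type} [Field L] [AddCommGroup V] [Module k V] (lam : L →+* Module.End k V)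
  (P : Module.End k V)

/-- even operators, scalar modulo finite rank -/
def SR (x : Module.End k V) : Prop := x * P = P * x ∧ ∃ a : L, FR (x - lam a)

variable {lam P}

theorem SR.comm {x : Module.End k V} (h : SR lam P x) : x * P = P * x := h.1

/-- the even part -/
def Ev (P x : Module.End k V) : Module.End k V := P * x * P + (1 - P) * x * (1 - P)

theorem Ev_comm (hP : P * P = P) (x : Module.End k V) : Ev P x * P = P * Ev P x := by
  have h1 : (1 - P) * P = 0 := by rw [sub_mul, one_mul, hP, sub_self]
  have h2 : P * (1 - P) = 0 := by rw [mul_sub, mul_one, hP, sub_self]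
  rw [Ev, add_mul, mul_add]
  calc P * x * P * P + (1 - P) * x * (1 - P) * P
      = P * x * (P * P) + (1 - P) * x * ((1 - P) * P) := by simp only [mul_assoc]
    _ = (P * P) * x * P + (P * (1 - P)) * x * (1 - P) := by rw [h1, h2, hP]; simp
    _ = _ := by simp only [mul_assoc]

theorem Ev_sub_FR (hP : P * P = P) {x : Module.End k V} (h : FR (x * P - P * x)) :
    FR (Ev P x - x) := by
  have h1 : Ev P x - x = - (P * (P * x - x * P) * (1 - P)) - (1 - P) * (x * P - P * x) * P := by
    have e1 : P * (P * x - x * P) * (1 - P) = P * x * (1 - P) := by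
      have : P * (P * x - x * P) * (1 - P) = (P * P) * x * (1 - P) - P * x * (P * (1 - P)) := by
        noncomm_ring
      rw [this, hP, mul_sub P 1 P, mul_one, hP, sub_self, mul_zero, sub_zero]
    have e2 : (1 - P) * (x * P - P * x) * P = (1 - P) * x * P := by
      have : (1 - P) * (x * P - P * x) * P = (1 - P) * x * (P * P) - ((1 - P) * P) * x * P := by
        noncomm_ring
      rw [this, hP, sub_mul 1 P P, one_mul, hP, sub_self, zero_mul, zero_mul, sub_zero]
    rw [e1, e2, Ev]
    noncomm_ring
  rw [h1]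
  have h2 : FR (P * x - x * P) := by
    have := h.neg
    rwa [neg_sub] at this
  exact (((h2.mul_left P).mul_right _).neg).sub ((h.mul_left _).mul_right _)

theorem SR.add {x y : Module.End k V} (h : SR lam P x) (h' : SR lam P y) : SR lam P (x + y) := by
  obtain ⟨h1, a, ha⟩ := h
  obtain ⟨h2, b, hb⟩ := h'
  refine ⟨by rw [add_mul, mul_add, h1, h2], a + b, ?_⟩
  rw [map_add, add_sub_add_comm]
  exact ha.add hb

theorem SR.neg {x : Module.End k V} (h : SR lam P x) : SR lam P (-x) := by
  obtain ⟨h1, a, ha⟩ := h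
  refine ⟨by rw [neg_mul, mul_neg, h1], -a, ?_⟩
  rw [map_neg, ← neg_sub_neg, neg_neg, neg_neg, ← neg_sub]
  exact ha.neg

theorem FR_mul_sub {x y : Module.End k V} {a b : L} (ha : FR (x - lam a)) (hb : FR (y - lam b)) :
    FR (x * y - lam (a * b)) := by
  have : x * y - lam (a * b) = (x - lam a) * y + lam a * (y - lam b) := by
    rw [map_mul]; noncomm_ring
  rw [this]
  exact (ha.mul_right _).add (hb.mul_left _)

theorem SR.mul {x y : Module.End k V} (h : SR lam P x) (h' : SR lam P y) : SR lam P (x * y) := by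
  obtain ⟨h1, a, ha⟩ := h
  obtain ⟨h2, b, hb⟩ := h'
  refine ⟨?_, a * b, FR_mul_sub ha hb⟩
  rw [mul_assoc, h2, ← mul_assoc, h1, mul_assoc]

theorem FR_commutator {x y : Module.End k V} {a b : L} (ha : FR (x - lam a))
    (hb : FR (y - lam b)) : FR (y * x + -(x * y)) := by
  have e1 := FR_mul_sub ha hb
  have e2 := FR_mul_sub hb ha
  rw [mul_comm b a] at e2
  have e3 := e2.sub e1
  rw [sub_sub_sub_cancel_right, sub_eq_add_neg] at e3
  exact e3

theorem SR.one : SR lam P 1 := ⟨by simp, 1, by rw [map_one, sub_self]; exact FR.zero⟩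

theorem SR.zero : SR lam P 0 := ⟨by simp, 0, by rw [map_zero, sub_self]; exact FR.zero⟩

theorem SR.of_FR {x : Module.End k V} (h1 : x * P = P * x) (h : FR x) : SR lam P x :=
  ⟨h1, 0, by rw [map_zero, sub_zero]; exact h⟩

/-- the commutator with the scalars is of finite rank -/
theorem SR.comm_FR {x : Module.End k V} (h1 : x * P = P * x) {a : L} (ha : FR (x - lam a)) :
    FR (lam a * P - P * lam a) := by
  have : lam a * P - P * lam a = P * (x - lam a) - (x - lam a) * P := by
    have e : P * (x - lam a) - (x - lam a) * P = (lam a * P - P * lam a) - (x * P - P * x) := by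
      noncomm_ring
    rw [e, h1, sub_self, sub_zero]
  rw [this]
  exact (ha.mul_left _).sub (ha.mul_right _)

theorem comm_inv {a : L} (h0 : a ≠ 0) (h : FR (lam a * P - P * lam a)) :
    FR (lam a⁻¹ * P - P * lam a⁻¹) := by
  have e1 : lam a⁻¹ * lam a = 1 := by rw [← map_mul, inv_mul_cancel₀ h0, map_one]
  have e2 : lam a * lam a⁻¹ = 1 := by rw [← map_mul, mul_inv_cancel₀ h0, map_one]
  have : lam a⁻¹ * P - P * lam a⁻¹ = lam a⁻¹ * (P * lam a - lam a * P) * lam a⁻¹ := by
    calc lam a⁻¹ * P - P * lam a⁻¹
        = lam a⁻¹ * P * (lam a * lam a⁻¹) - (lam a⁻¹ * lam a) * P * lam a⁻¹ := by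
          rw [e1, e2, mul_one, one_mul]
      _ = _ := by noncomm_ring
  rw [this]
  have h2 := h.neg
  rw [neg_sub] at h2
  exact (h2.mul_left _).mul_right _

theorem SR.regular_FR (hP : P * P = P) {x : Module.End k V} (h1 : x * P = P * x) (h : FR x) :
    ∃ y, SR lam P y ∧ x * y * x = x := by
  obtain ⟨y₀, hy₀⟩ := end_regular x
  let y₁ := y₀ * x * y₀
  have hy₁ : x * y₁ * x = x := by
    calc x * (y₀ * x * y₀) * x = (x * y₀ * x) * y₀ * x := by simp only [mul_assoc]
      _ = x := by rw [hy₀, hy₀]
  have hF : FR y₁ := (h.mul_left y₀).mul_right y₀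
  refine ⟨Ev P y₁, SR.of_FR (Ev_comm hP _) ?_, ?_⟩
  · exact ((hF.mul_left P).mul_right P).add ((hF.mul_left (1 - P)).mul_right (1 - P))
  · have h1' : x * (1 - P) = (1 - P) * x := by rw [mul_sub, sub_mul, h1, mul_one, one_mul]
    calc x * Ev P y₁ * x = (x * P) * y₁ * (P * x) + (x * (1 - P)) * y₁ * ((1 - P) * x) := by
          rw [Ev]; noncomm_ring
      _ = P * (x * y₁ * x) * P + (1 - P) * (x * y₁ * x) * (1 - P) := by
          rw [← h1, ← h1', h1, h1']
          simp only [mul_assoc]
          rw [h1, h1']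
      _ = P * (x * P) + (1 - P) * (x * (1 - P)) := by rw [hy₁]; simp only [mul_assoc]
      _ = (P * P) * x + ((1 - P) * (1 - P)) * x := by rw [h1, h1']; simp only [mul_assoc]
      _ = x := by
          have : (1 - P) * (1 - P) = 1 - P := by
            rw [mul_sub, mul_one, sub_mul, one_mul, hP, sub_self, sub_zero]
          rw [hP, this, ← add_mul]; simp

theorem SR.regular (hP : P * P = P) {x : Module.End k V} (h : SR lam P x) :
    ∃ y, SR lam P y ∧ x * y * x = x := by
  obtain ⟨h1, a, ha⟩ := h
  by_cases h0 : a = 0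
  · rw [h0, map_zero, sub_zero] at ha
    exact SR.regular_FR hP h1 ha
  · have hc := comm_inv h0 (SR.comm_FR h1 ha)
    have hr : SR lam P (Ev P (lam a⁻¹)) := ⟨Ev_comm hP _, a⁻¹, Ev_sub_FR hP hc⟩
    have hz : FR (x - x * Ev P (lam a⁻¹) * x) := by
      have e := FR_mul_sub (FR_mul_sub ha (Ev_sub_FR hP hc)) ha
      rw [mul_inv_cancel₀ h0, one_mul] at e
      have := ha.sub e
      rwa [sub_sub_sub_cancel_right] at this
    have hx : SR lam P x := ⟨h1, a, ha⟩
    have hzc := (hx.add ((hx.mul hr).mul hx).neg).1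
    rw [← sub_eq_add_neg] at hzc
    obtain ⟨g, hg, hgz⟩ := SR.regular_FR (lam := lam) hP hzc hz
    refine ⟨Ev P (lam a⁻¹) + (1 - Ev P (lam a⁻¹) * x) * g * (1 - x * Ev P (lam a⁻¹)), ?_, ?_⟩
    · have k1 := SR.one.add (hr.mul hx).neg
      have k2 := SR.one.add (hx.mul hr).neg
      rw [← sub_eq_add_neg] at k1 k2
      exact hr.add ((k1.mul hg).mul k2)
    · generalize Ev P (lam a⁻¹) = r at *
      have : x * (r + (1 - r * x) * g * (1 - x * r)) * x =
          x * r * x + (x - x * r * x) * g * (x - x * r * x) := by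
        noncomm_ring
      rw [this, hgz]
      abel

theorem SR.finite (hV : ¬ FiniteDimensional k V) {x y : Module.End k V} (hx : SR lam P x)
    (hxy : x * y = 1) : y * x = 1 := by
  obtain ⟨h1, a, ha⟩ := hx
  by_cases h0 : a = 0
  · exfalso
    rw [h0, map_zero, sub_zero] at ha
    have h2 := ha.mul_right y
    rw [hxy] at h2
    unfold FR at h2
    apply hV
    have h3 : LinearMap.range (1 : Module.End k V) = ⊤ := LinearMap.range_id
    rw [h3] at h2
    exact Module.Finite.equiv (Submodule.topEquiv (R := k) (M := V))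
  · have e1 : lam a⁻¹ * lam a = 1 := by rw [← map_mul, inv_mul_cancel₀ h0, map_one]
    have e2 : lam a * lam a⁻¹ = 1 := by rw [← map_mul, mul_inv_cancel₀ h0, map_one]
    have hz : FR (lam a⁻¹ * x - 1) := by
      have := ha.mul_left (lam a⁻¹)
      rwa [mul_sub, e1] at this
    have hs : Function.Surjective (lam a⁻¹ * x : Module.End k V) := by
      intro v
      refine ⟨y (lam a v), ?_⟩
      have : lam a⁻¹ * x * (y * lam a) = 1 := by
        calc lam a⁻¹ * x * (y * lam a) = lam a⁻¹ * (x * y) * lam a := by simp only [mul_assoc]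
          _ = 1 := by rw [hxy, mul_one, e1]
      exact congrArg (fun f : Module.End k V => f v) this
    have hi := inj_of_surj hz hs
    have hxi : Function.Injective x := by
      intro v w hvw
      apply hi
      change lam a⁻¹ (x v) = lam a⁻¹ (x w)
      rw [hvw]
    ext v
    apply hxi
    have := congrArg (fun f : Module.End k V => f (x v)) hxy
    exact this

theorem SR.compl {x : Module.End k V} : SR lam (1 - P) x ↔ SR lam P x := by
  unfold SR
  have : x * (1 - P) = (1 - P) * x ↔ x * P = P * x := by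
    rw [mul_sub, sub_mul, mul_one, one_mul, sub_right_inj]
  rw [this]

theorem FR_r1 (φ : V →ₗ[k] k) (v : V) : FR (φ.smulRight v : Module.End k V) := by
  refine FR.of_le (K := Submodule.span k {v}) (fun u => ?_)
  rw [LinearMap.smulRight_apply]
  exact Submodule.smul_mem _ _ (Submodule.mem_span_singleton_self _)

theorem SR_r1 {φ : V →ₗ[k] k} {v : V} (hv : P v = v) (hφ : ∀ u, φ (P u) = φ u) :
    SR lam P (φ.smulRight v : Module.End k V) := by
  refine SR.of_FR ?_ (FR_r1 _ _)
  ext u
  change φ (P u) • v = P (φ u • v)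
  rw [hφ, map_smul, hv]

/-- the operators of finite rank living on the range of `P` lie in the ideal generated by an
operator which does not vanish there -/
theorem kill (hP : P * P = P) {K : Module.End k V → Prop} (h0 : K 0)
    (hadd : ∀ x y, K x → K y → K (x + y))
    (hmul : ∀ a z b, SR lam P a → SR lam P b → K z → K (a * z * b))
    {z : Module.End k V} (hz : K z) (hzP : z * P = P * z) {v₀ : V} (hv₀ : P v₀ = v₀)
    (hne : z v₀ ≠ 0) {g : Module.End k V} (hg : FR g) (hgP : g * P = P * g) (hg1 : g * P = g) :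
    K g := by
  have hPz : P (z v₀) = z v₀ := by
    have := congrArg (fun f : Module.End k V => f v₀) hzP
    change z (P v₀) = P (z v₀) at this
    rw [← this, hv₀]
  have hPP : ∀ u, P (P u) = P u := fun u => congrArg (fun f : Module.End k V => f u) hP
  obtain ⟨φ₀, hφ₀⟩ : ∃ φ : V →ₗ[k] k, φ (z v₀) = 1 := by
    obtain ⟨ψ, hψ⟩ : ∃ ψ : V →ₗ[k] k, ψ (z v₀) ≠ 0 := by
      by_contra hc
      push Not at hc
      exact hne ((Module.forall_dual_apply_eq_zero_iff k (z v₀)).1 hc)
    exact ⟨(ψ (z v₀))⁻¹ • ψ, by rw [LinearMap.smul_apply, smul_eq_mul, inv_mul_cancel₀ hψ]⟩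
  have key : ∀ (φ : V →ₗ[k] k) (v : V), P v = v → (∀ u, φ (P u) = φ u) →
      K (φ.smulRight v : Module.End k V) := by
    intro φ v hv hφ
    have h1 : (φ.smulRight v : Module.End k V) =
        ((φ₀ ∘ₗ P).smulRight v : Module.End k V) * z * (φ.smulRight v₀ : Module.End k V) := by
      ext u
      change φ u • v = φ₀ (P (z (φ u • v₀))) • v
      rw [map_smul, map_smul, map_smul, hPz, hφ₀, smul_eq_mul, mul_one]
    rw [h1]
    refine hmul _ _ _ (SR_r1 hv (fun u => ?_)) (SR_r1 hv₀ hφ) hz
    change φ₀ (P (P u)) = φ₀ (P u)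
    rw [hPP]
  unfold FR at hg
  let b := Module.finBasis k (LinearMap.range g)
  have hPg : ∀ w ∈ LinearMap.range g, P w = w := by
    rintro _ ⟨u, rfl⟩
    have := congrArg (fun f : Module.End k V => f u) hgP
    change g (P u) = P (g u) at this
    rw [← this]
    exact congrArg (fun f : Module.End k V => f u) hg1
  have hdec : g = ∑ j, ((b.coord j ∘ₗ g.rangeRestrict).smulRight (b j : V) : Module.End k V) := by
    ext u
    rw [LinearMap.sum_apply]
    have h1 := congrArg (fun w : LinearMap.range g => (w : V)) (b.sum_repr (g.rangeRestrict u))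
    simp only [Submodule.coe_sum, Submodule.coe_smul] at h1
    exact h1.symm
  rw [hdec]
  refine Finset.sum_induction _ K hadd h0 (fun j _ => key _ _ (hPg _ (b j).2) (fun u => ?_))
  change b.coord j (g.rangeRestrict (P u)) = b.coord j (g.rangeRestrict u)
  congr 1
  exact Subtype.ext (congrArg (fun f : Module.End k V => f u) hg1)

end Ring

end

end Pool.Agent.W408.RD
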