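import Pool.Agent.W408.RD.Base

set_option autoImplicit false
set_option linter.unusedVariables false

/-!
# The levels
-/

namespace Pool.Agent.W408.RD

noncomputable section

/-- the field of Laurent series -/
abbrev LL := LaurentSeries ℂ

/-- the truncation to the nonnegative exponents -/
def p₀ : Module.End ℂ LL := LinearMap.id - HahnSeries.truncLTLinearMap ℂ 0

theorem p₀_coeff (f : LL) (i : ℤ) : (p₀ f).coeff i = if i < 0 then 0 else f.coeff i := by
  change (f - HahnSeries.truncLT 0 f).coeff i = _
  rw [HahnSeries.coeff_sub, HahnSeries.coeff_truncLT]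
  split_ifs <;> simp

theorem p₀_idem (f : LL) : p₀ (p₀ f) = p₀ f := by
  ext i
  rw [p₀_coeff, p₀_coeff]
  split_ifs <;> rfl

/-- the compressed multiplication by the variable -/
def T₀ : Module.End ℂ LL where
  toFun f := HahnSeries.single 1 1 * f - HahnSeries.single 0 (f.coeff (-1))
  map_add' f g := by
    rw [mul_add, HahnSeries.coeff_add, HahnSeries.single_add]
    abel
  map_smul' c f := by
    ext i
    simp only [HahnSeries.coeff_sub, HahnSeries.coeff_single_mul, HahnSeries.coeff_smul,
      HahnSeries.coeff_single, RingHom.id_apply, smul_eq_mul]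
    split_ifs <;> ring

theorem T₀_coeff (f : LL) (i : ℤ) : (T₀ f).coeff i = if i = 0 then 0 else f.coeff (i - 1) := by
  change (HahnSeries.single 1 1 * f - HahnSeries.single 0 (f.coeff (-1))).coeff i = _
  rw [HahnSeries.coeff_sub, HahnSeries.coeff_single_mul, HahnSeries.coeff_single]
  split_ifs with h
  · subst h; simp
  · simp

theorem T₀_p₀ (f : LL) : T₀ (p₀ f) = p₀ (T₀ f) := by
  ext i
  rw [T₀_coeff, p₀_coeff, p₀_coeff, T₀_coeff]
  split_ifs <;> first | rfl | omega

/-- the spaces -/
abbrev VV (n : ℕ) := (Fin n → Fin 3) → LL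

theorem mul_smul' (a : LL) (c : ℂ) (f : LL) : a * (c • f) = c • (a * f) := by
  rw [← HahnSeries.single_zero_mul_eq_smul, ← HahnSeries.single_zero_mul_eq_smul, mul_left_comm]

/-- multiplication by a scalar -/
def lamf (n : ℕ) (a : LL) : Module.End ℂ (VV n) where
  toFun v i := a * v i
  map_add' v w := by funext i; exact mul_add _ _ _
  map_smul' c v := by funext i; exact mul_smul' _ _ _

/-- the scalars -/
def lam (n : ℕ) : LL →+* Module.End ℂ (VV n) where
  toFun a := lamf n a
  map_one' := LinearMap.ext fun v => funext fun i => one_mul _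
  map_zero' := LinearMap.ext fun v => funext fun i => zero_mul _
  map_add' a b := LinearMap.ext fun v => funext fun i => add_mul _ _ _
  map_mul' a b := LinearMap.ext fun v => funext fun i => mul_assoc _ _ _

theorem lam_apply {n : ℕ} (a : LL) (v : VV n) (i : Fin n → Fin 3) : lam n a v i = a * v i := rfl

/-- the sign -/
def sg {n : ℕ} (i : Fin n → Fin 3) : ℤ := ∏ j, (if i j = 2 then -1 else 1)

theorem sg_or {n : ℕ} (i : Fin n → Fin 3) : sg i = 1 ∨ sg i = -1 := by
  unfold sg
  refine Finset.prod_induction _ (fun x : ℤ => x = 1 ∨ x = -1) ?_ (Or.inl rfl) ?_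
  · rintro a b (rfl | rfl) (rfl | rfl) <;> simp
  · intro j _
    split_ifs <;> simp

theorem sg_snoc {n : ℕ} (i : Fin n → Fin 3) (a : Fin 3) :
    sg (Fin.snoc i a : Fin (n + 1) → Fin 3) = sg i * (if a = 2 then -1 else 1) := by
  rw [sg, Fin.prod_univ_castSucc, sg]
  simp

theorem sg_sum (n : ℕ) : ∑ i : Fin n → Fin 3, sg i = 1 := by
  have h := Finset.prod_univ_sum (fun _ : Fin n => (Finset.univ : Finset (Fin 3)))
    (fun _ a => (if a = 2 then (-1 : ℤ) else 1))
  rw [Fintype.piFinset_univ] at h
  have h2 : ∑ a : Fin 3, (if a = 2 then (-1 : ℤ) else 1) = 1 := by decide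
  simp only [h2, Finset.prod_const_one] at h
  exact h.symm

/-- the grading -/
def PP (n : ℕ) : Module.End ℂ (VV n) where
  toFun v i := if sg i = 1 then p₀ (v i) else v i - p₀ (v i)
  map_add' v w := by
    funext i
    simp only [Pi.add_apply, map_add]
    split_ifs <;> abel
  map_smul' c v := by
    funext i
    simp only [Pi.smul_apply, map_smul, RingHom.id_apply]
    split_ifs
    · rfl
    · rw [smul_sub]

theorem PP_apply {n : ℕ} (v : VV n) (i : Fin n → Fin 3) :
    PP n v i = if sg i = 1 then p₀ (v i) else v i - p₀ (v i) := rfl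

theorem PP_idem (n : ℕ) : PP n * PP n = PP n := by
  refine LinearMap.ext fun v => funext fun i => ?_
  change PP n (PP n v) i = PP n v i
  rw [PP_apply, PP_apply]
  split_ifs
  · exact p₀_idem _
  · rw [map_sub, p₀_idem, sub_self, sub_zero]

/-- the compressed multiplication by the variable -/
def TT (n : ℕ) : Module.End ℂ (VV n) where
  toFun v i := T₀ (v i)
  map_add' v w := by funext i; simp
  map_smul' c v := by funext i; simp

theorem TT_apply {n : ℕ} (v : VV n) (i : Fin n → Fin 3) : TT n v i = T₀ (v i) := rfl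

theorem TT_comm (n : ℕ) : TT n * PP n = PP n * TT n := by
  refine LinearMap.ext fun v => funext fun i => ?_
  change TT n (PP n v) i = PP n (TT n v) i
  rw [TT_apply, PP_apply, PP_apply, TT_apply]
  split_ifs
  · exact T₀_p₀ _
  · rw [map_sub, T₀_p₀]

theorem TT_SR : SR (lam 0) (PP 0) (TT 0) := by
  refine ⟨TT_comm 0, HahnSeries.single 1 1, ?_⟩
  let K : Submodule ℂ (VV 0) := Submodule.span ℂ {fun _ => HahnSeries.single 0 1}
  refine FR.of_le (K := K) (fun v => ?_)
  have : (TT 0 - lam 0 (HahnSeries.single 1 1)) v =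
      (-(v default).coeff (-1)) • (fun _ => HahnSeries.single 0 1 : VV 0) := by
    funext i
    rw [Subsingleton.elim i default]
    change T₀ (v default) - HahnSeries.single 1 1 * v default = _
    ext j
    rw [HahnSeries.coeff_sub, T₀_coeff, HahnSeries.coeff_single_mul, Pi.smul_apply,
      HahnSeries.coeff_smul, HahnSeries.coeff_single]
    split_ifs with h
    · subst h; simp
    · simp
  rw [this]
  exact Submodule.smul_mem _ _ (Submodule.mem_span_singleton_self _)

/-- slices -/
def sl {n : ℕ} (a : Fin 3) (v : VV (n + 1)) : VV n := fun j => v (Fin.snoc j a)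

theorem sl_ext {n : ℕ} {v w : VV (n + 1)} (h : ∀ a, sl a v = sl a w) : v = w := by
  funext i
  have := congrFun (h (i (Fin.last n))) (Fin.init i)
  simpa [sl] using this

/-- passage to the next level -/
def raise (n : ℕ) : Module.End ℂ (VV n) →+* Module.End ℂ (VV (n + 1)) where
  toFun x :=
    { toFun := fun v i => x (sl (i (Fin.last n)) v) (Fin.init i)
      map_add' := fun v w => by
        funext i
        have : sl (i (Fin.last n)) (v + w) = sl (i (Fin.last n)) v + sl (i (Fin.last n)) w := rfl
        rw [this, map_add]; rfl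
      map_smul' := fun c v => by
        funext i
        have : sl (i (Fin.last n)) (c • v) = c • sl (i (Fin.last n)) v := rfl
        rw [this, map_smul]; rfl }
  map_one' := by
    refine LinearMap.ext fun v => funext fun i => ?_
    change sl (i (Fin.last n)) v (Fin.init i) = v i
    simp [sl]
  map_zero' := by exact LinearMap.ext fun v => funext fun i => rfl
  map_add' x y := by exact LinearMap.ext fun v => funext fun i => rfl
  map_mul' x y := by
    refine LinearMap.ext fun v => funext fun i => ?_
    change x (y (sl (i (Fin.last n)) v)) (Fin.init i) =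
      x (sl (i (Fin.last n)) (fun i => y (sl (i (Fin.last n)) v) (Fin.init i))) (Fin.init i)
    have h : sl (i (Fin.last n)) (fun i => y (sl (i (Fin.last n)) v) (Fin.init i)) =
        y (sl (i (Fin.last n)) v) := by
      funext j
      simp [sl]
    rw [h]

theorem sl_raise {n : ℕ} (x : Module.End ℂ (VV n)) (a : Fin 3) (v : VV (n + 1)) :
    sl a (raise n x v) = x (sl a v) := by
  funext j
  change x (sl ((Fin.snoc j a : Fin (n + 1) → Fin 3) (Fin.last n)) v)
    (Fin.init (Fin.snoc j a : Fin (n + 1) → Fin 3)) = _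
  simp

theorem sl_PP {n : ℕ} (a : Fin 3) (v : VV (n + 1)) :
    sl a (PP (n + 1) v) = if a = 2 then sl a v - PP n (sl a v) else PP n (sl a v) := by
  funext j
  change PP (n + 1) v (Fin.snoc j a) = _
  rw [PP_apply, sg_snoc]
  by_cases ha : a = 2
  · rw [if_pos ha, if_pos ha, Pi.sub_apply, PP_apply]
    rcases sg_or j with h | h
    · rw [h]
      simp [sl]
    · rw [h]
      simp [sl]
  · rw [if_neg ha, if_neg ha, PP_apply, mul_one]
    rfl

theorem raise_lam (n : ℕ) (a : LL) : raise n (lam n a) = lam (n + 1) a := by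
  refine LinearMap.ext fun v => funext fun i => ?_
  change a * sl (i (Fin.last n)) v (Fin.init i) = a * v i
  simp [sl]

theorem raise_TT (n : ℕ) : raise n (TT n) = TT (n + 1) := by
  refine LinearMap.ext fun v => funext fun i => ?_
  change T₀ (sl (i (Fin.last n)) v (Fin.init i)) = T₀ (v i)
  simp [sl]

theorem raise_FR {n : ℕ} {x : Module.End ℂ (VV n)} (h : FR x) : FR (raise n x) := by
  unfold FR at h
  let G : (Fin 3 → LinearMap.range x) →ₗ[ℂ] VV (n + 1) :=
    { toFun := fun w i => (w (i (Fin.last n)) : VV n) (Fin.init i)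
      map_add' := fun v w => by funext i; simp
      map_smul' := fun c v => by funext i; simp }
  refine FR.of_le (K := LinearMap.range G) (fun v => ?_)
  exact ⟨fun a => ⟨x (sl a v), sl a v, rfl⟩, rfl⟩

theorem raise_SR {n : ℕ} {x : Module.End ℂ (VV n)} (h : SR (lam n) (PP n) x) :
    SR (lam (n + 1)) (PP (n + 1)) (raise n x) := by
  obtain ⟨h1, a, ha⟩ := h
  refine ⟨?_, a, ?_⟩
  · refine LinearMap.ext fun v => ?_
    apply sl_ext
    intro b
    have h2 : ∀ u, x (PP n u) = PP n (x u) := fun u => congrArg (fun f : Module.End ℂ (VV n) => f u) h1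
    change sl b (raise n x (PP (n + 1) v)) = sl b (PP (n + 1) (raise n x v))
    rw [sl_raise, sl_PP, sl_PP, sl_raise]
    split_ifs
    · rw [map_sub, h2]
    · rw [h2]
  · have h3 : raise n x - raise n (lam n a) = raise n (x - lam n a) := (map_sub (raise n) _ _).symm
    rw [← raise_lam, h3]
    exact raise_FR ha

/-- the inclusion of a slice -/
def emb {n : ℕ} (a : Fin 3) (v : VV n) : VV (n + 1) := fun i =>
  if i (Fin.last n) = a then v (Fin.init i) else 0

theorem sl_emb {n : ℕ} (a b : Fin 3) (v : VV n) : sl b (emb a v) = if b = a then v else 0 := by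
  funext j
  simp only [sl, emb, Fin.snoc_last, Fin.init_snoc]
  split_ifs <;> rfl

theorem raise_emb {n : ℕ} (x : Module.End ℂ (VV n)) (a : Fin 3) (v : VV n) :
    raise n x (emb a v) = emb a (x v) := by
  apply sl_ext
  intro b
  rw [sl_raise, sl_emb, sl_emb]
  split_ifs
  · rfl
  · rw [map_zero]

theorem PP_emb {n : ℕ} (a : Fin 3) (v : VV n) :
    PP (n + 1) (emb a v) = emb a (if a = 2 then v - PP n v else PP n v) := by
  apply sl_ext
  intro b
  rw [sl_PP, sl_emb, sl_emb]
  by_cases h : b = a
  · subst h
    simp only [if_true]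
  · simp only [if_neg h, map_zero, sub_zero, ite_self]

theorem emb_ne {n : ℕ} (a : Fin 3) {v : VV n} (h : v ≠ 0) : emb a v ≠ 0 := by
  intro h0
  apply h
  have := congrArg (sl a) h0
  rw [sl_emb, if_pos rfl] at this
  exact this

/-- nonvanishing on both homogeneous parts -/
def NZ {n : ℕ} (z : Module.End ℂ (VV n)) : Prop :=
  (∃ v, PP n v = v ∧ z v ≠ 0) ∧ (∃ v, (1 - PP n) v = v ∧ z v ≠ 0)

theorem raise_NZ {n : ℕ} {z : Module.End ℂ (VV n)} (h : z ≠ 0) : NZ (raise n z) := by
  obtain ⟨v, hv⟩ : ∃ v, z v ≠ 0 := by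
    by_contra hc
    push Not at hc
    exact h (LinearMap.ext hc)
  have hP : ∀ u, PP n (PP n u) = PP n u := fun u =>
    congrArg (fun f : Module.End ℂ (VV n) => f u) (PP_idem n)
  have key : ∀ u : VV n, (PP n u = u ∨ PP n u = 0) → z u ≠ 0 → NZ (raise n z) := by
    intro u hu hz
    rcases hu with hu | hu
    · refine ⟨⟨emb 0 u, ?_, ?_⟩, ⟨emb 2 u, ?_, ?_⟩⟩
      · rw [PP_emb, if_neg (by decide), hu]
      · rw [raise_emb]; exact emb_ne _ hz
      · rw [LinearMap.sub_apply, PP_emb, if_pos rfl, hu, sub_self]
        have : emb (2 : Fin 3) (0 : VV n) = 0 := by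
          funext i; simp [emb]
        rw [this, sub_zero]; rfl
      · rw [raise_emb]; exact emb_ne _ hz
    · refine ⟨⟨emb 2 u, ?_, ?_⟩, ⟨emb 0 u, ?_, ?_⟩⟩
      · rw [PP_emb, if_pos rfl, hu, sub_zero]
      · rw [raise_emb]; exact emb_ne _ hz
      · rw [LinearMap.sub_apply, PP_emb, if_neg (by decide), hu]
        have : emb (0 : Fin 3) (0 : VV n) = 0 := by
          funext i; simp [emb]
        rw [this, sub_zero]; rfl
      · rw [raise_emb]; exact emb_ne _ hz
  by_cases h1 : z (PP n v) = 0
  · refine key (v - PP n v) (Or.inr (by rw [map_sub, hP, sub_self])) ?_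
    rw [map_sub, h1, sub_zero]
    exact hv
  · exact key (PP n v) (Or.inl (hP v)) h1

theorem NZ.ne {n : ℕ} {z : Module.End ℂ (VV n)} (h : NZ z) : z ≠ 0 := by
  rintro rfl
  obtain ⟨⟨v, -, hv⟩, -⟩ := h
  exact hv rfl

theorem single_smul' (c d : ℂ) :
    (HahnSeries.single 0 (c • d) : LL) = c • HahnSeries.single 0 d := by
  ext i
  rw [HahnSeries.coeff_smul, HahnSeries.coeff_single, HahnSeries.coeff_single]
  split_ifs <;> simp

theorem p₀_single (c : ℂ) : p₀ (HahnSeries.single 0 c) = HahnSeries.single 0 c := by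
  ext i
  rw [p₀_coeff, HahnSeries.coeff_single]
  split_ifs <;> first | rfl | omega

/-- the kernel of the compressed multiplication by the variable -/
theorem T₀_ker {f : LL} (h : T₀ f = 0) (h' : f.coeff (-1) = 0 ∨ p₀ f = f) : f = 0 := by
  have h1 : ∀ i : ℤ, i ≠ -1 → f.coeff i = 0 := by
    intro i hi
    have := congrArg (fun g : LL => g.coeff (i + 1)) h
    simp only [T₀_coeff, HahnSeries.coeff_zero] at this
    rw [if_neg (by omega), add_sub_cancel_right] at this
    exact this
  ext i
  rw [HahnSeries.coeff_zero]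
  by_cases hi : i = -1
  · subst hi
    rcases h' with h' | h'
    · exact h'
    · rw [← h', p₀_coeff, if_pos (by omega)]
  · exact h1 i hi

/-- there is no even unit which is an inner inverse of the compressed multiplication -/
theorem no_unit (n : ℕ) (u u' : Module.End ℂ (VV n)) (hu : u * PP n = PP n * u)
    (h1 : u' * u = 1) (h : TT n * u * TT n = TT n) : False := by
  classical
  have hinj : ∀ v, u v = 0 → v = 0 := by
    intro v hv
    have := congrArg (fun f : Module.End ℂ (VV n) => f v) h1
    change u' (u v) = v at this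
    rw [← this, hv, map_zero]
  -- the lift of a vector
  let J : ({i : Fin n → Fin 3 // sg i = 1} → ℂ) →ₗ[ℂ] VV n :=
    { toFun := fun w i => if h : sg i = 1 then HahnSeries.single 0 (w ⟨i, h⟩) else 0
      map_add' := fun v w => by
        funext i
        simp only [Pi.add_apply]
        split_ifs
        · exact HahnSeries.single_add _ _ _
        · simp
      map_smul' := fun c v => by
        funext i
        simp only [Pi.smul_apply, RingHom.id_apply]
        split_ifs
        · exact single_smul' _ _
        · simp }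
  have hJP : ∀ w, PP n (J w) = J w := by
    intro w
    funext i
    rw [PP_apply]
    by_cases hi : sg i = 1
    · rw [if_pos hi]
      simp only [J, LinearMap.coe_mk, AddHom.coe_mk, dif_pos hi]
      exact p₀_single _
    · rw [if_neg hi]
      simp only [J, LinearMap.coe_mk, AddHom.coe_mk, dif_neg hi]
      simp
  let ψ : Module.End ℂ (VV n) := u * (1 - TT n * u)
  have hTψ : TT n * ψ = 0 := alg1 (A := Module.End ℂ (VV n)) (T := TT n) (u := u) h
  have hψP : ψ * PP n = PP n * ψ :=
    alg2 (A := Module.End ℂ (VV n)) (T := TT n) (u := u) (P := PP n) (TT_comm n) hu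
  let C : VV n →ₗ[ℂ] ({i : Fin n → Fin 3 // ¬ sg i = 1} → ℂ) :=
    { toFun := fun v i => (v i.1).coeff (-1)
      map_add' := fun v w => by funext i; simp
      map_smul' := fun c v => by funext i; simp }
  let Φ := C ∘ₗ ψ ∘ₗ J
  have hΦ : Function.Injective Φ := by
    rw [injective_iff_map_eq_zero]
    intro w hw
    have hy0 : ψ (J w) = 0 := by
      funext i
      have hT : T₀ (ψ (J w) i) = 0 :=
        congrFun (congrArg (fun f : Module.End ℂ (VV n) => f (J w)) hTψ) i
      apply T₀_ker hT
      by_cases hi : sg i = 1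
      · right
        have h2 := congrArg (fun f : Module.End ℂ (VV n) => f (J w)) hψP
        change ψ (PP n (J w)) = PP n (ψ (J w)) at h2
        rw [hJP] at h2
        have h3 := congrFun h2 i
        rw [PP_apply, if_pos hi] at h3
        exact h3.symm
      · left
        exact congrFun hw ⟨i, hi⟩
    have h4 : J w = TT n (u (J w)) := by
      have := hinj _ hy0
      exact sub_eq_zero.1 this
    funext ⟨i, hi⟩
    have h5 := congrArg (fun g : LL => g.coeff 0) (congrFun h4 i)
    simp only [J, LinearMap.coe_mk, AddHom.coe_mk, dif_pos hi, TT_apply, T₀_coeff, if_true,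
      HahnSeries.coeff_single_same] at h5
    exact h5
  have hcard := LinearMap.finrank_le_finrank_of_injective hΦ
  rw [Module.finrank_fintype_fun_eq_card, Module.finrank_fintype_fun_eq_card] at hcard
  have hsum := sg_sum n
  rw [← Finset.sum_filter_add_sum_filter_not Finset.univ (fun i : Fin n → Fin 3 => sg i = 1)] at hsum
  have e1 : ∑ i ∈ Finset.univ.filter (fun i : Fin n → Fin 3 => sg i = 1), sg i =
      Fintype.card {i : Fin n → Fin 3 // sg i = 1} := by
    rw [Fintype.card_subtype, Finset.card_eq_sum_ones]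
    push_cast
    exact Finset.sum_congr rfl fun i hi => (Finset.mem_filter.1 hi).2
  have e2 : ∑ i ∈ Finset.univ.filter (fun i : Fin n → Fin 3 => ¬ sg i = 1), sg i =
      - (Fintype.card {i : Fin n → Fin 3 // ¬ sg i = 1} : ℤ) := by
    rw [Fintype.card_subtype, Finset.card_eq_sum_ones]
    push_cast
    rw [← Finset.sum_neg_distrib]
    exact Finset.sum_congr rfl fun i hi => (sg_or i).resolve_left (Finset.mem_filter.1 hi).2
  rw [e1, e2] at hsum
  have : (Fintype.card {i : Fin n → Fin 3 // sg i = 1} : ℤ) ≤
      Fintype.card {i : Fin n → Fin 3 // ¬ sg i = 1} := by exact_mod_cast hcard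
  omega

end

end Pool.Agent.W408.RD
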